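import Pool.Agent.H7.CP.Targets2
import Pool.Agent.H7.CP.RZ

/-!
# Row RBH of the board `cap2_modules` (MP_e37c09_lc): each set in HOD has an index
-/

open Ordinal Cardinal Order Set
open scoped ZFSet

universe u

namespace Pool.Agent.H85.CP.RBH

open _root_.HD
open Pool.Agent.H60.HD9.IX (do_px do_nth' ix_spec ix_uniq sub_ext)
open Pool.Agent.H7.CP.RZ (RA hr)

theorem os_sub (ν : Ordinal.{u}) (Y : Set Ordinal.{u}) : os ν Y ⊆ ν.toZFSet := fun z hz => by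
  obtain ⟨a, ha, -, rfl⟩ := mem_os.1 hz
  exact toZFSet_mem_toZFSet_iff.2 ha

theorem hrf {en : Ordinal.{u} → ZFSet.{u}} (hen : EN en) {Q : Ordinal.{u} → Ordinal.{u} → Prop}
    (hQ : DR Q) {t : Ordinal.{u} → Ordinal.{u} → Ordinal.{u}} (ht : Prf t) :
    HRF (RB en Q t) := by
  refine ⟨fun β ν X Y hXY => ?_, fun Y hY k i => ?_⟩
  · unfold RB
    rw [Pool.Agent.H3.CP.CD2.os_congr hXY]
  · refine DO.congr (A := fun w => ∃ z x p, nth (Cs en (w i)) z x ∧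
      (∀ ζ < w i, (ζ ∈ E en x ↔ Y ζ w)) ∧ p = t (w i) z ∧ Q (w k) p) ?_ fun w => ?_
    · refine DO.ex (R := fun z w => ∃ x p, nth (Cs en (w i)) z x ∧
        (∀ ζ < w i, (ζ ∈ E en x ↔ Y ζ w)) ∧ p = t (w i) z ∧ Q (w k) p) ?_
      refine DO.ex (R := fun x w => ∃ p, nth (Cs en (w (i + 1))) (w 0) x ∧
        (∀ ζ < w (i + 1), (ζ ∈ E en x ↔ Y ζ (fun n => w (n + 1)))) ∧
          p = t (w (i + 1)) (w 0) ∧ Q (w (k + 1)) p) ?_
      refine DO.ex (R := fun p w => nth (Cs en (w (i + 2))) (w 1) (w 0) ∧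
        (∀ ζ < w (i + 2), (ζ ∈ E en (w 0) ↔ Y ζ (fun n => w (n + 2)))) ∧
          p = t (w (i + 2)) (w 1) ∧ Q (w (k + 2)) p) ?_
      refine (do_nth' hen 2 1 (i + 3)).and (DO.and ?_ (DO.and ?_ ?_))
      · refine DO.allLt (R := fun ζ w => ζ ∈ E en (w 1) ↔ Y ζ (fun n => w (n + 3))) (i + 3)
          (DO.iff ?_ ?_)
        · exact DO.s2 (X := fun a b => a ∈ E en b) (All.ea en hen).1 0 2
        · exact (hY.ren (fun n => if n = 0 then 0 else n + 3)).congr fun w => by simp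
      · exact DO.s3 (X := fun a b c => c = t a b) ht.dfn (i + 3) 2 0
      · exact DO.s2 (X := Q) hQ (k + 3) 0
    · have hds : DS {a | Y a w} := DO.sect (P := fun y w => Y y w) hY w
      have hsub := os_sub (w i) {a | Y a w}
      show Q (w k) (t (w i) (ix en (w i) (os (w i) {a | Y a w}))) ↔ _
      constructor
      · intro h
        obtain ⟨x, hx, he⟩ := ix_spec hen (hod_os hds (w i)) hsub
        refine ⟨_, x, _, hx, fun ζ hζ => ?_, rfl, h⟩
        show ζ.toZFSet ∈ en x ↔ _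
        rw [he, ord_mem_os]
        exact ⟨fun h => h.2, fun h => ⟨hζ, h⟩⟩
      · rintro ⟨z, x, p, hx, he, rfl, h⟩
        have hz : z = ix en (w i) (os (w i) {a | Y a w}) := by
          refine ix_uniq hen (hod_os hds (w i)) hsub hx (sub_ext hx.1.1 hsub fun ζ hζ => ?_)
          rw [ord_mem_os]
          exact ⟨fun h => ⟨hζ, (he ζ hζ).1 h⟩, fun h => (he ζ hζ).2 h.2⟩
        rw [← hz]
        exact h

theorem X : T_RBH.{u} := by
  intro en hen K lam Q f t hK hK0 ht hQ hpow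
  refine ⟨hrf hen hQ.dr ht, fun A hA => ?_⟩
  have hRA : HR (RA A) := hr hA.od
  have hX : DS {p | ∃ ν z, p = t ν z ∧ RA A ν {a | PX en ν z a}} := by
    refine DO.ex (R := fun ν w => ∃ z, w 0 = t ν z ∧ RA A ν {a | PX en ν z a}) ?_
    refine DO.ex (R := fun z w => w 1 = t (w 0) z ∧ RA A (w 0) {a | PX en (w 0) z a}) ?_
    refine DO.and ?_ ?_
    · exact DO.s3 (X := fun a b c => c = t a b) ht.dfn 1 0 2
    · refine hRA.dfn (fun a w => PX en (w 1) (w 0) a) ?_ 1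
      exact DO.s3 (X := fun a b c => PX en a b c) (do_px hen) 2 1 0
  obtain ⟨β, hβ, hβX⟩ := hQ.enu _ hX
  refine ⟨β, hβ, fun ν hν Y hY => ?_⟩
  have hos : HOD (os ν Y) := hod_os hY ν
  obtain ⟨h4, h4'⟩ := (Pool.Agent.H60.HD9.IX.ix en hen).2.2.2.1 ν _ hos (os_sub ν Y)
  have hpn : pn en ν < K.ord := (Pool.Agent.H60.HD9.IX.ix en hen).2.2.2.2.2 K ν hK (hpow ν hν)
  have htl : t ν (ix en ν (os ν Y)) < K.ord := ht.lt K hK0.le ν hν _ (h4.trans hpn)
  show Q β (t ν (ix en ν (os ν Y))) ↔ RA A ν Y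
  rw [hβX _ htl]
  have hRR : RA A ν {a | PX en ν (ix en ν (os ν Y)) a} ↔ RA A ν Y :=
    hRA.ext ν _ _ fun a ha => by
      show PX en ν (ix en ν (os ν Y)) a ↔ _
      rw [h4' a ha, ord_mem_os]
      exact ⟨fun h => h.2, fun h => ⟨ha, h⟩⟩
  constructor
  · rintro ⟨ν', z', he, h⟩
    obtain ⟨rfl, rfl⟩ := ht.inj _ _ _ _ he
    exact hRR.1 h
  · intro h
    exact ⟨ν, _, rfl, hRR.2 h⟩

end Pool.Agent.H85.CP.RBH
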